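import Pool.Agent.helper5.LDH.Spec

/-!
# Row ldh:OFF (MP_4467b5_nt)
-/

set_option autoImplicit false

open Complex MeasureTheory

namespace Pool.Agent.LDH

open Pool.Agent.helper84.DM Pool.Agent.helper78.ED Pool.Agent.DH

theorem OFF (hINT : INT_stmt) (hABL : ABL_stmt) (hWGT : WGT_stmt) : OFF_stmt := by
  intro N w B H t M hN hH hB hW hM
  obtain ⟨-, h1⟩ := hINT N w H t hH
  refine h1.trans ?_
  refine mul_le_mul_of_nonneg_left ?_ (by positivity)
  have h2 : ∑ n ∈ Finset.Ioc N (2 * N), w n ^ 2 ≤ (N : ℝ) := by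
    have h3 : ∀ n ∈ Finset.Ioc N (2 * N), w n ^ 2 ≤ 1 := by
      intro n hn
      have h4 := hW.1 n hn
      rw [← sq_abs]
      have h5 := abs_nonneg (w n)
      nlinarith
    refine (Finset.sum_le_sum h3).trans (le_of_eq ?_)
    rw [Finset.sum_const, nsmul_eq_mul, mul_one, Nat.card_Ioc]
    congr 1
    omega
  have h3 : ∀ h ∈ Finset.Ioo 0 N, ‖∑ n ∈ Finset.Ioc N (2 * N - h), ((w n * w (n + h) * gg H h n : ℝ) : ℂ) * PH t h n‖ ≤
      (2 * B + 3) * (Real.exp (-((h : ℝ) / (4 * N / H)) ^ 2) * M h) := by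
    intro h hh
    obtain ⟨ha, hb⟩ := Finset.mem_Ioo.1 hh
    have hle : N ≤ 2 * N - h := by omega
    have hM0 : 0 ≤ M h := by
      have := hM h hh N le_rfl hle
      simpa using this
    have h4 := hABL (fun n => w n * w (n + h) * gg H h n) (fun n => PH t h n) N (2 * N - h) (M h) hle (hM h hh)
    refine h4.trans ?_
    have h5 := hWGT N h w B H ha hb hH hB hW
    refine (mul_le_mul_of_nonneg_left h5 hM0).trans (le_of_eq ?_)
    ring
  have h4 := Finset.sum_le_sum h3
  linarith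

end Pool.Agent.LDH
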